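import Pool.Agent.Lib_helper45.REll.Defs3

/-!
# Block INTR: `R_m` is a virtual character
-/

open scoped BigOperators ComplexConjugate
open Polynomial

namespace Pool.Agent.REll

variable {F : Type} [Field F]

open CF

/-- homogeneous parts of a product -/
theorem part_mul (m : ℕ) (f h : CF F) :
    part m (f * h) = ∑ a ∈ Finset.range (m + 1), part a f * part (m - a) h := by
  ext V _ _ _ g
  have hfin : Module.Finite F V := Module.Finite.of_finite
  by_cases hV : Module.finrank F V = m
  · have := Fintype.ofFinite (Stab g)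
    rw [part_apply, if_pos hV, CF.sum_apply, mul_apply, finsum_eq_sum_of_fintype]
    simp only [mul_apply, finsum_eq_sum_of_fintype]
    rw [Finset.sum_comm]
    refine Finset.sum_congr rfl fun W _ => ?_
    have hW := Submodule.finrank_quotient_add_finrank W.1
    rw [Finset.sum_eq_single_of_mem (Module.finrank F W.1) (Finset.mem_range.2 (by omega))]
    · rw [part_apply, part_apply, if_pos rfl, if_pos (by omega)]
    · intro a _ ha
      rw [part_apply, if_neg (fun h => ha h.symm), zero_mul]
  · have h1 : (∑ a ∈ Finset.range (m + 1), part a f * part (m - a) h).IsHom m := by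
      refine IsHom.sum _ _ fun a ha => ?_
      rw [Finset.mem_range] at ha
      have h2 := (isHom_part a f).mul (isHom_part (m - a) h)
      rwa [show a + (m - a) = m by omega] at h2
    rw [isHom_part m (f * h) V g hV, h1 V g hV]

variable [Finite F] {K : Type} [Field K] [Finite K] [Algebra F K]

theorem part_Bf_mem (θ : MulChar K ℂ) (m : ℕ) (hK : Big F m K) :
    part m (Bf K θ : CF F) ∈ AA F := by
  rw [mem_AA, irr_complete]
  refine Submodule.sum_mem _ fun χ hχ => ?_
  have hχ' := mem_irrF.1 hχ
  obtain ⟨d, ρ, -, hρ⟩ := hχ'.2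
  obtain ⟨z, hz⟩ := ip_Bf_int (F := F) m hK θ ρ
  have h1 : ip m (Bf K θ : CF F) χ = z := by
    rw [ip_eq, ← hz, ← hρ]
  rw [h1, int_cast_smul]
  exact Submodule.smul_mem _ _ (ch_mem_spn (⟨m, χ, hχ'⟩ : Idx F))

theorem part_allOne_mem (m : ℕ) : part m (allOne : CF F) ∈ AA F :=
  mem_AA.2 (ch_mem_spn (⟨m, _, allOne_irr m⟩ : Idx F))

theorem part_R_mem' (θ : MulChar K ℂ) (R : CF F) (hR : R * allOne = Bf K θ) (m : ℕ)
    (hK : Big F m K) : part m R ∈ AA F := by
  induction m using Nat.strong_induction_on with
  | _ m ih =>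
    have h1 := part_mul m R allOne
    rw [hR, Finset.sum_range_succ, Nat.sub_self, part_zero_allOne, mul_one] at h1
    have h2 : part m R = part m (Bf K θ) -
        ∑ a ∈ Finset.range m, part a R * part (m - a) allOne := by
      rw [h1]; abel
    rw [h2]
    refine Subring.sub_mem _ (part_Bf_mem θ m hK) (Subring.sum_mem _ fun a ha => ?_)
    rw [Finset.mem_range] at ha
    exact Subring.mul_mem _ (ih a ha (fun j h1 h2 => hK j h1 (by omega))) (part_allOne_mem _)

end Pool.Agent.REll
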