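import Pool.Agent.Lib_helper45.REll.Defs3

/-!
# Block NWT: a ring homomorphism on hooks, an additive functional on hooks
-/

open scoped BigOperators ComplexConjugate
open Polynomial

namespace Pool.Agent.REll.PSH
universe u v
variable {I : Type u} {A : Type v} [CommRing A] (P : PSH I A)

namespace NWT

variable {P}

lemma eval_h {r i₂ : I} (H : P.HK r i₂) (D : A →+* ℂ) (u : ℤ) (d : ℕ → ℚ)
    (m : ℕ) (hd : ∀ j, 1 ≤ j → j ≤ m → D (H.p j) = (u : ℂ) ^ j * (d j : ℂ)) :
    ∀ j, j ≤ m → D (H.h j) = (u : ℂ) ^ j * (nH d j : ℂ) := by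
  intro j
  induction j using Nat.strong_induction_on with
  | _ j ih =>
    intro hj
    rcases Nat.eq_zero_or_pos j with h0 | hpos
    · subst h0
      rw [H.h0, map_one, nH]
      simp
    · have h1 := congrArg D (H.newton j hpos)
      rw [map_mul, map_natCast, map_sum] at h1
      have h2 : ∑ x ∈ Finset.Icc 1 j, D (H.p x * H.h (j - x)) =
          ∑ x ∈ Finset.range j, D (H.p (x + 1) * H.h (j - (x + 1))) := by
        rw [Finset.range_eq_Ico, Finset.sum_Ico_add' (fun x => D (H.p x * H.h (j - x))) 0 j 1]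
        rfl
      rw [h2] at h1
      have h3 : ∀ x ∈ Finset.range j, D (H.p (x + 1) * H.h (j - (x + 1))) =
          (u : ℂ) ^ j * ((d (x + 1) * nH d (j - 1 - x) : ℚ) : ℂ) := by
        intro x hx
        rw [Finset.mem_range] at hx
        rw [map_mul, hd (x + 1) (by omega) (by omega), ih (j - (x + 1)) (by omega) (by omega)]
        have : j - 1 - x = j - (x + 1) := by omega
        rw [this]
        push_cast
        have h4 : (u : ℂ) ^ j = (u : ℂ) ^ (x + 1) * (u : ℂ) ^ (j - (x + 1)) := by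
          rw [← pow_add]; congr 1; omega
        rw [h4]; ring
      rw [Finset.sum_congr rfl h3, ← Finset.mul_sum] at h1
      have hj0 : (j : ℂ) ≠ 0 := by exact_mod_cast hpos.ne'
      have h5 : nH d j = (∑ x ∈ Finset.range j, d (x + 1) * nH d (j - 1 - x)) / j := by
        rw [nH, if_neg hpos.ne', Finset.sum_range]
      rw [h5]
      push_cast
      push_cast at h1
      field_simp
      linear_combination h1

lemma e_rec {r i₂ : I} (H : P.HK r i₂) (m : ℕ) (hm : 1 ≤ m) :
    H.e m = (-1) ^ (m + 1) * ∑ i ∈ Finset.range m, (-1) ^ i * H.e i * H.h (m - i) := by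
  have h1 := H.he m hm
  rw [Finset.sum_range_succ, Nat.sub_self, H.h0, mul_one] at h1
  have h2 : ((-1 : A)) ^ m * (-1) ^ m = 1 := by
    rw [← mul_pow]; simp
  have h3 : ∑ i ∈ Finset.range m, (-1) ^ i * H.e i * H.h (m - i) = - ((-1) ^ m * H.e m) :=
    eq_neg_of_add_eq_zero_left h1
  rw [h3, pow_succ]
  calc H.e m = ((-1) ^ m * (-1) ^ m) * H.e m := by rw [h2, one_mul]
    _ = _ := by ring

lemma eval_e {r i₂ : I} (H : P.HK r i₂) (D : A →+* ℂ) (u : ℤ) (d : ℕ → ℚ)
    (m : ℕ) (hd : ∀ j, 1 ≤ j → j ≤ m → D (H.p j) = (u : ℂ) ^ j * (d j : ℂ)) :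
    ∀ j, j ≤ m → D (H.e j) = (u : ℂ) ^ j * (nE d j : ℂ) := by
  intro j
  induction j using Nat.strong_induction_on with
  | _ j ih =>
    intro hj
    rcases Nat.eq_zero_or_pos j with h0 | hpos
    · subst h0
      rw [H.e0, map_one, nE]
      simp
    · have h1 := congrArg D (e_rec H j hpos)
      rw [map_mul, map_pow, map_neg, map_one, map_sum] at h1
      rw [h1]
      have h3 : ∀ x ∈ Finset.range j, D ((-1) ^ x * H.e x * H.h (j - x)) =
          (u : ℂ) ^ j * (((-1) ^ x * nE d x * nH d (j - x) : ℚ) : ℂ) := by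
        intro x hx
        rw [Finset.mem_range] at hx
        rw [map_mul, map_mul, map_pow, map_neg, map_one, ih x hx (by omega),
          eval_h H D u d m hd (j - x) (by omega)]
        push_cast
        have h4 : (u : ℂ) ^ j = (u : ℂ) ^ x * (u : ℂ) ^ (j - x) := by
          rw [← pow_add]; congr 1; omega
        rw [h4]; ring
      rw [Finset.sum_congr rfl h3, ← Finset.mul_sum]
      have h5 : nE d j = (-1) ^ (j + 1) *
          ∑ x ∈ Finset.range j, (-1) ^ x * nE d x * nH d (j - x) := by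
        rw [nE, if_neg hpos.ne', Finset.sum_range]
      rw [h5]
      push_cast
      ring

end NWT

/-- if `D (p j) = u^j d_j` then `D (s m t) = u^m nS d m t` -/
theorem hook_eval' {r i₂ : I} (H : P.HK r i₂) (D : A →+* ℂ) (u : ℤ) (d : ℕ → ℚ)
    (m : ℕ) (hd : ∀ j, 1 ≤ j → j ≤ m → D (H.p j) = (u : ℂ) ^ j * (d j : ℂ)) (t : ℕ) (ht : t < m) :
    D (H.s m t) = (u : ℂ) ^ m * (nS d m t : ℂ) := by
  rw [H.hs m t ht, map_sum, nS]
  push_cast
  rw [Finset.mul_sum]
  refine Finset.sum_congr rfl fun i hi => ?_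
  rw [Finset.mem_range] at hi
  rw [map_mul, map_mul, map_pow, map_neg, map_one, NWT.eval_e H D u d m hd (t - i) (by omega),
    NWT.eval_h H D u d m hd (m - t + i) (by omega)]
  have h4 : (u : ℂ) ^ m = (u : ℂ) ^ (t - i) * (u : ℂ) ^ (m - t + i) := by
    rw [← pow_add]; congr 1; omega
  rw [h4]; ring

namespace NWT

/-- The augmentation ideal, as a subgroup. -/
def J : Submodule ℤ A := Submodule.span ℤ (P.b '' {i | i ≠ P.one})

variable {P}

lemma L_mul {L : A →+ ℂ} (hL : ∀ i j, i ≠ P.one → j ≠ P.one → L (P.b i * P.b j) = 0)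
    {x y : A} (hx : x ∈ J P) (hy : y ∈ J P) : L (x * y) = 0 := by
  induction hx, hy using Submodule.span_induction₂ with
  | mem_mem x y hx hy =>
    obtain ⟨i, hi, rfl⟩ := hx
    obtain ⟨j, hj, rfl⟩ := hy
    exact hL i j hi hj
  | zero_left y hy => rw [zero_mul, map_zero]
  | zero_right x hx => rw [mul_zero, map_zero]
  | add_left x y z hx hy hz h1 h2 => rw [add_mul, map_add, h1, h2, add_zero]
  | add_right x y z hx hy hz h1 h2 => rw [mul_add, map_add, h1, h2, add_zero]
  | smul_left c x y hx hy h => rw [smul_mul_assoc, map_zsmul, h, smul_zero]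
  | smul_right c x y hx hy h => rw [mul_smul_comm, map_zsmul, h, smul_zero]

lemma b_mem {i : I} (hi : P.deg i ≠ 0) : P.b i ∈ J P := by
  refine Submodule.subset_span ⟨i, ?_, rfl⟩
  intro h
  rw [h, P.deg_one] at hi
  exact hi rfl

lemma h_mem {r i₂ : I} (hr : P.PrimIdx r) (H : P.HK r i₂) (m : ℕ) (hm : 1 ≤ m) : H.h m ∈ J P := by
  obtain ⟨i, hi, hd⟩ := H.hb m
  rw [hi]
  refine b_mem ?_
  rw [hd]
  exact Nat.mul_ne_zero (by omega) hr.1.ne'

lemma s_mem {r i₂ : I} (hr : P.PrimIdx r) (H : P.HK r i₂) (m t : ℕ) (ht : t < m) :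
    H.s m t ∈ J P := by
  obtain ⟨i, ε, -, hs, hd, -⟩ := H.sb m t ht
  rw [hs]
  refine Submodule.smul_mem _ _ (b_mem ?_)
  rw [hd]
  exact Nat.mul_ne_zero (by omega) hr.1.ne'

lemma neg_one_pow_mul_mem {x : A} (hx : x ∈ J P) (n : ℕ) : (-1) ^ n * x ∈ J P := by
  rcases neg_one_pow_eq_or A n with h | h
  · rw [h, one_mul]; exact hx
  · rw [h, neg_one_mul]; exact Submodule.neg_mem _ hx

lemma p_mem {r i₂ : I} (hr : P.PrimIdx r) (H : P.HK r i₂) (m : ℕ) (hm : 1 ≤ m) : H.p m ∈ J P := by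
  rw [H.ps m hm]
  refine Submodule.sum_mem _ fun t ht => ?_
  rw [Finset.mem_range] at ht
  exact neg_one_pow_mul_mem (s_mem hr H m t ht) t

lemma e_mem {r i₂ : I} (hr : P.PrimIdx r) (H : P.HK r i₂) (m : ℕ) (hm : 1 ≤ m) : H.e m ∈ J P := by
  have h1 : H.e m = H.s m (m - 1) := by
    rw [e_rec H m hm, H.hs m (m - 1) (by omega), Finset.mul_sum,
      show m - 1 + 1 = m by omega, ← Finset.sum_range_reflect]
    refine Finset.sum_congr rfl fun i hi => ?_
    rw [Finset.mem_range] at hi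
    rw [show m - (m - 1) + i = i + 1 by omega,
      show m - (m - 1 - i) = i + 1 by omega]
    have h2 : ((-1 : A)) ^ (m + 1) * (-1) ^ (m - 1 - i) = (-1) ^ i := by
      rw [← pow_add, show m + 1 + (m - 1 - i) = 2 * (m - i) + i by omega, pow_add, pow_mul]
      simp
    calc (-1) ^ (m + 1) * ((-1) ^ (m - 1 - i) * H.e (m - 1 - i) * H.h (i + 1))
        = ((-1) ^ (m + 1) * (-1) ^ (m - 1 - i)) * H.e (m - 1 - i) * H.h (i + 1) := by ring
      _ = _ := by rw [h2]
  rw [h1]
  exact s_mem hr H m (m - 1) (by omega)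

end NWT

/-- an additive functional killing products sees hooks through the power sum -/
theorem hook_lin' {r i₂ : I} (hr : P.PrimIdx r) (H : P.HK r i₂) (L : A →+ ℂ)
    (hL : ∀ i j, i ≠ P.one → j ≠ P.one → L (P.b i * P.b j) = 0)
    (m : ℕ) (t : ℕ) (ht : t < m) :
    (m : ℂ) * L (H.s m t) = (-1) ^ t * L (H.p m) := by
  have hneg : ∀ (n : ℕ) (x : A), L ((-1) ^ n * x) = (-1) ^ n * L x := by
    intro n x
    rcases Nat.even_or_odd n with h | h
    · rw [h.neg_one_pow, h.neg_one_pow, one_mul, one_mul]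
    · rw [h.neg_one_pow, h.neg_one_pow, neg_one_mul, neg_one_mul, map_neg]
  have h1 : (m : ℂ) * L (H.h m) = L (H.p m) := by
    have h2 := congrArg L (H.newton m (by omega))
    rw [← nsmul_eq_mul, map_nsmul, nsmul_eq_mul, map_sum] at h2
    rw [h2, Finset.sum_eq_single_of_mem m (Finset.mem_Icc.2 ⟨by omega, le_rfl⟩)]
    · rw [Nat.sub_self, H.h0, mul_one]
    · intro j hj hjm
      rw [Finset.mem_Icc] at hj
      exact NWT.L_mul hL (NWT.p_mem hr H j hj.1) (NWT.h_mem hr H (m - j) (by omega))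
  have h3 : L (H.s m t) = (-1) ^ t * L (H.h m) := by
    rw [H.hs m t ht, map_sum, Finset.sum_range_succ, Finset.sum_eq_zero, zero_add]
    · rw [Nat.sub_self, H.e0, mul_one, show m - t + t = m by omega, hneg]
    · intro i hi
      rw [Finset.mem_range] at hi
      rw [mul_assoc, hneg, NWT.L_mul hL (NWT.e_mem hr H (t - i) (by omega))
        (NWT.h_mem hr H (m - t + i) (by omega)), mul_zero]
  rw [h3, ← h1]
  ring

end Pool.Agent.REll.PSH
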